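import Mathlib
import Pool.Agent.H44.MZ3

open MeasureTheory
open scoped ENNReal NNReal

namespace Pool.Agent.Results.MP_a9eb04_an.Sharp

open Pool.Agent.H44.MZ

theorem result (p : ℝ) (hp : 1 < p) :
    IsLeast {K : ℝ≥0∞ | ∀ (T : RTree) (π : T.E → ℝ≥0) (μ : Measure T.Pt),
        T.hardy p π μ ≤ K * T.isocap p π μ}
      (ENNReal.ofReal (p ^ p / (p - 1) ^ (p - 1))) :=
  ⟨fun T π μ => T.upper hp π μ, fun K hK => lower hp K (hK P)⟩

end Pool.Agent.Results.MP_a9eb04_an.Sharp
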